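import Pool.Agent.helper10.ICO.Def

set_option autoImplicit false

/-!
# Monotonicity, locality, countability
-/

namespace Pool.Agent.ICO

theorem word_length_le {s : ℕ} (T : ℕ → Fin (s + 3)) (h : ℕ) : (word T h).length ≤ h := by
  refine (List.length_filterMap_le _ _).trans ?_
  simp

theorem word_succ {s : ℕ} (T : ℕ → Fin (s + 3)) (h : ℕ) : word T (h + 1) = word T h ++ (toBit (T h)).toList := by
  unfold word
  rw [List.range_succ, List.filterMap_append]
  congr 1

theorem word_update {s : ℕ} (T : ℕ → Fin (s + 3)) (h : ℕ) (a : Fin (s + 3)) :
    word (Function.update T h a) h = word T h := by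
  unfold word
  refine List.filterMap_congr fun i hi => ?_
  rw [List.mem_range] at hi
  rw [Function.update_of_ne (by omega)]

theorem toBit_sym (s : ℕ) (b : Bool) : toBit (sym s b) = some b := by
  cases b <;> simp [toBit, sym]

theorem word_write {s : ℕ} (T : ℕ → Fin (s + 3)) (h : ℕ) (b : Bool) :
    word (Function.update T h (sym s b)) (h + 1) = word T h ++ [b] := by
  rw [word_succ, word_update, Function.update_self, toBit_sym]
  rfl

theorem runFrom_mono (M : OTM) (B : Str → Bool) : ∀ (n m : ℕ) (c : Cfg M) (o : Option Out), n ≤ m →
    runFrom M B n c = some o → runFrom M B m c = some o := by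
  intro n
  induction n with
  | zero => intro m c o _ h; simp [runFrom] at h
  | succ n ih =>
    intro m c o hm h
    obtain ⟨m, rfl⟩ : ∃ m', m = m' + 1 := ⟨m - 1, by omega⟩
    unfold runFrom at h ⊢
    cases hs : step M B c with
    | inl o' => rw [hs] at h; exact h
    | inr c' => rw [hs] at h; exact ih m c' o (by omega) h

theorem run_mono (M : OTM) (B : Str → Bool) (p y z : Str) {n m : ℕ} {o : Option Out} (hnm : n ≤ m)
    (h : run M B p y z n = some o) : run M B p y z m = some o := runFrom_mono M B n m _ o hnm h

theorem run_unique (M : OTM) (B : Str → Bool) (p y z : Str) {n m : ℕ} {o o' : Option Out}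
    (h : run M B p y z n = some o) (h' : run M B p y z m = some o') : o = o' := by
  have h1 := run_mono M B p y z (le_max_left n m) h
  have h2 := run_mono M B p y z (le_max_right n m) h'
  rw [h1] at h2
  exact Option.some.inj h2

/-- The truncation of an oracle to the strings of length less than `n`. -/
def tr (B : Str → Bool) (n : ℕ) (x : Str) : Bool := decide (x.length < n) && B x

theorem tr_tr (B : Str → Bool) {n m : ℕ} (h : m ≤ n) : tr (tr B n) m = tr B m := by
  funext x
  unfold tr
  by_cases h1 : x.length < m
  · have h2 : x.length < n := by omega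
    simp [h1, h2]
  · simp [h1]

theorem tr_of_lt (B : Str → Bool) {n : ℕ} {x : Str} (h : x.length < n) : tr B n x = B x := by
  simp [tr, h]

theorem apply_le (m : Move) (h : ℕ) : m.apply h ≤ h + 1 := by
  cases m <;> simp [Move.apply]; omega

theorem step_congr (M : OTM) (B B' : Str → Bool) (c : Cfg M)
    (h : B (word (c.tape (queryTape M)) (c.head (queryTape M))) = B' (word (c.tape (queryTape M)) (c.head (queryTape M)))) :
    step M B c = step M B' c := by
  unfold step
  rw [h]

theorem step_head (M : OTM) (B : Str → Bool) (c c' : Cfg M) (h : step M B c = .inr c') (j : Fin (M.k + 5)) :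
    c'.head j ≤ c.head j + 1 := by
  unfold step at h
  split at h
  all_goals first
    | (simp at h; done)
    | (obtain rfl := Sum.inr.inj h; exact apply_le _ _)

theorem runFrom_tr (M : OTM) (B : Str → Bool) (m : ℕ) : ∀ (n : ℕ) (c : Cfg M),
    c.head (queryTape M) + n ≤ m → runFrom M (tr B m) n c = runFrom M B n c := by
  intro n
  induction n with
  | zero => intro c _; rfl
  | succ n ih =>
    intro c hc
    have hw : (word (c.tape (queryTape M)) (c.head (queryTape M))).length < m :=
      (word_length_le _ _).trans_lt (by omega)
    have hs := step_congr M (tr B m) B c (tr_of_lt B hw)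
    unfold runFrom
    rw [hs]
    cases hc' : step M B c with
    | inl o => rfl
    | inr c' =>
      have := step_head M B c c' hc' (queryTape M)
      exact ih c' (by omega)

theorem run_tr (M : OTM) (B : Str → Bool) (p y z : Str) {n m : ℕ} (h : n ≤ m) :
    run M (tr B m) p y z n = run M B p y z n := by
  refine runFrom_tr M B m n _ ?_
  show 0 + n ≤ m
  omega

/-! ## countability -/

deriving instance DecidableEq, Fintype for Stop
deriving instance DecidableEq, Fintype for Move

instance : Countable OTM := by
  have : Function.Injective (fun M : OTM => (⟨M.k, M.s, M.q, M.δ⟩ :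
      (k : ℕ) × (s : ℕ) × (q : ℕ) × (Fin (q + 1) → (Fin (k + 5) → Fin (s + 3)) → Bool →
        Stop ⊕ (Fin (q + 1) × (Fin (k + 5) → Fin (s + 3) × Move))))) := by
    intro M M' h
    cases M
    cases M'
    simp only [Sigma.mk.injEq] at h
    obtain ⟨rfl, h⟩ := h
    have h := eq_of_heq h
    simp only [Sigma.mk.injEq] at h
    obtain ⟨rfl, h⟩ := h
    have h := eq_of_heq h
    simp only [Sigma.mk.injEq] at h
    obtain ⟨rfl, h⟩ := h
    have h := eq_of_heq h
    rw [h]
  exact this.countable

instance : Countable {g : ℕ → ℕ // Computable g} := by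
  have h : ∀ g : {g : ℕ → ℕ // Computable g}, ∃ c : Nat.Partrec.Code, c.eval = (fun n => Part.some (g.1 n)) := by
    intro g
    have h1 : Partrec (fun n => Part.some (g.1 n) : ℕ →. ℕ) := g.2
    exact Nat.Partrec.Code.exists_code.mp (Partrec.nat_iff.mp h1)
  choose f hf using h
  have hi : Function.Injective f := by
    intro g g' hg
    have := (hf g).symm.trans ((congrArg _ hg).trans (hf g'))
    apply Subtype.ext
    funext n
    exact Part.some_injective (congrFun this n)
  exact hi.countable

end Pool.Agent.ICO
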