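import Mathlib

set_option autoImplicit false

/-!
# Oracle Turing machines, instance complexity and time-bounded Kolmogorov complexity relative to an oracle
-/

namespace Pool.Agent.ICO

open scoped Classical

/-- Strings over `{0,1}`. -/
abbrev Str := List Bool

/-- Outputs: a string, or one of `0`, `1`, `⊥`; here `Sum.inr (some b)` is the bit `b` and `Sum.inr none` is `⊥`. -/
abbrev Out := Str ⊕ Option Bool

/-- The ways in which a machine can halt: without output, with the string on the output tape, with a bit, with `⊥`. -/
inductive Stop
  | nothing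
  | string
  | bit (b : Bool)
  | dontKnow

/-- Head movements. -/
inductive Move
  | left
  | stay
  | right

/-- The new head position on a one-way infinite tape. -/
def Move.apply : Move → ℕ → ℕ
  | .left, h => h - 1
  | .stay, h => h
  | .right, h => h + 1

/-- A deterministic multitape oracle Turing machine with three string inputs `p`, `y`, `z`. It has `k + 5` one-way
infinite tapes: three tapes holding the inputs (`0`, `1`, `2`), an output tape (`3`), a query tape (`4`) and `k` further
tapes. The tape alphabet is `{0, ..., s + 2}`, where `0` is the blank and `1`, `2` stand for the bits `0`, `1`; the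
states are `0, ..., q`, and `0` is the initial state. A step depends on the state, on the scanned symbols, and on the
answer of the oracle to the word written to the left of the head of the query tape; the machine then halts, or changes
its state, rewrites the scanned symbols and moves its heads. -/
structure OTM where
  k : ℕ
  s : ℕ
  q : ℕ
  δ : Fin (q + 1) → (Fin (k + 5) → Fin (s + 3)) → Bool →
    Stop ⊕ (Fin (q + 1) × (Fin (k + 5) → Fin (s + 3) × Move))

/-- The symbol which stands for the bit `b`. -/
def sym (s : ℕ) (b : Bool) : Fin (s + 3) := if b then ⟨2, by omega⟩ else ⟨1, by omega⟩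

/-- The bit for which a symbol stands, if any. -/
def toBit {s : ℕ} (a : Fin (s + 3)) : Option Bool :=
  if a.val = 1 then some false else if a.val = 2 then some true else none

/-- The bits written to the left of the position `h` of the tape `T`. -/
def word {s : ℕ} (T : ℕ → Fin (s + 3)) (h : ℕ) : Str := (List.range h).filterMap (fun i => toBit (T i))

/-- The tape with content `x`. -/
def ofStr (s : ℕ) (x : Str) (i : ℕ) : Fin (s + 3) := (x[i]?.map (sym s)).getD ⟨0, by omega⟩

/-- Configurations. -/
structure Cfg (M : OTM) where
  state : Fin (M.q + 1)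
  tape : Fin (M.k + 5) → ℕ → Fin (M.s + 3)
  head : Fin (M.k + 5) → ℕ

/-- The initial configuration on the inputs `p`, `y`, `z`. -/
def init (M : OTM) (p y z : Str) : Cfg M where
  state := ⟨0, by omega⟩
  tape := fun j => ofStr M.s (if j.val = 0 then p else if j.val = 1 then y else if j.val = 2 then z else [])
  head := fun _ => 0

/-- The index of the output tape. -/
def outTape (M : OTM) : Fin (M.k + 5) := ⟨3, by omega⟩

/-- The index of the query tape. -/
def queryTape (M : OTM) : Fin (M.k + 5) := ⟨4, by omega⟩

/-- One step of `M` with oracle `B`: the machine halts, or reaches a new configuration. -/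
def step (M : OTM) (B : Str → Bool) (c : Cfg M) : Option Out ⊕ Cfg M :=
  match M.δ c.state (fun j => c.tape j (c.head j)) (B (word (c.tape (queryTape M)) (c.head (queryTape M)))) with
  | .inl .nothing => .inl none
  | .inl .string => .inl (some (.inl (word (c.tape (outTape M)) (c.head (outTape M)))))
  | .inl (.bit b) => .inl (some (.inr (some b)))
  | .inl .dontKnow => .inl (some (.inr none))
  | .inr (q', a) => .inr
    { state := q'
      tape := fun j => Function.update (c.tape j) (c.head j) (a j).1
      head := fun j => (a j).2.apply (c.head j) }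

/-- `runFrom M B n c = none` if `M` does not halt within `n` steps from `c`, and `some o` if it does, with output `o`
(`o = none`: no output). -/
def runFrom (M : OTM) (B : Str → Bool) : ℕ → Cfg M → Option (Option Out)
  | 0, _ => none
  | n + 1, c =>
    match step M B c with
    | .inl o => some o
    | .inr c' => runFrom M B n c'

/-- `run M B p y z n`: the result of `n` steps of `M` with oracle `B` on the inputs `p`, `y`, `z`. -/
def run (M : OTM) (B : Str → Bool) (p y z : Str) (n : ℕ) : Option (Option Out) := runFrom M B n (init M p y z)

/-- The characteristic function of `A`. -/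
noncomputable def chi (A : Set Str) (x : Str) : Bool := decide (x ∈ A)

/-- `z ↦ M(p, ε, z)` is `A`-consistent and halts on every `z` within `t(|z|)` steps. -/
def Consistent (M : OTM) (B : Str → Bool) (t : ℕ → ℕ) (A : Set Str) (p : Str) : Prop :=
  ∀ z, ∃ o, run M B p [] z (t z.length) = some o ∧
    ∀ v, o = some v → v = Sum.inr none ∨ v = Sum.inr (some (chi A z))

/-- The instance complexity `ic_M^t(x : A)` relative to `B`. -/
noncomputable def ic (M : OTM) (B : Str → Bool) (t : ℕ → ℕ) (A : Set Str) (x : Str) : ℕ∞ :=
  ⨅ p : {p : Str // Consistent M B t A p ∧ run M B p [] x (t x.length) = some (some (Sum.inr (some (chi A x))))},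
    (p.1.length : ℕ∞)

/-- The time-bounded Kolmogorov complexity `C_M^t(x)` relative to `B`. -/
noncomputable def Cx (M : OTM) (B : Str → Bool) (t : ℕ → ℕ) (x : Str) : ℕ∞ :=
  ⨅ p : {p : Str // run M B p [] [] (t x.length) = some (some (Sum.inl x))}, (p.1.length : ℕ∞)

/-- The time bound `c t(n) log t(n) + c`. -/
noncomputable def slow (c : ℕ) (t : ℕ → ℕ) (n : ℕ) : ℕ := ⌊(c : ℝ) * t n * Real.log (t n) + c⌋₊

/-- `U` is an optimal interpreter relative to `B`. -/
def Optimal (B : Str → Bool) (U : OTM) : Prop :=
  ∀ M : OTM, ∃ c : ℕ, ∀ (A : Set Str) (t : ℕ → ℕ) (x : Str),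
    ic U B (slow c t) A x ≤ ic M B t A x + c ∧ Cx U B (slow c t) x ≤ Cx M B t x + c

/-- `t' = O(t log t)`. -/
def IsO (t' t : ℕ → ℕ) : Prop := ∃ K : ℕ, ∀ n, (t' n : ℝ) ≤ K * t n * Real.log (t n) + K

/-- `t` is time-constructible relative to `B`: `1^t(n)` can be computed from `1^n` in time `O(t(n))`. -/
def Constructible (B : Str → Bool) (t : ℕ → ℕ) : Prop :=
  ∃ (M : OTM) (K : ℕ), ∀ n, run M B [] [] (List.replicate n true) (K * t n + K) =
    some (some (Sum.inl (List.replicate (t n) true)))

/-- `A` is recursive in `B`. -/
def Recursive (B : Str → Bool) (A : Set Str) : Prop :=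
  ∃ M : OTM, ∀ z, ∃ n, run M B [] [] z n = some (some (Sum.inr (some (chi A z))))

/-- `A` belongs to `DTIME(t)` relative to `B`. -/
def DTime (B : Str → Bool) (t : ℕ → ℕ) (A : Set Str) : Prop :=
  ∃ (M : OTM) (K : ℕ), ∀ z, run M B [] [] z (K * t z.length + K) = some (some (Sum.inr (some (chi A z))))

end Pool.Agent.ICO
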