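import Pool.Agent.helper10.ICO.Oracle

set_option autoImplicit false

/-!
# The guided machine

On the input `v` (on tape `0` or on tape `2`) the machine writes the header `hdr e v` on the query tape, then zeros until
the oracle answers `1`, and then follows the answers of the oracle.
-/

namespace Pool.Agent.ICO

open scoped Classical

/-- The symbols written and the movements of the heads: append the bit `w` (if any) to the query tape and the bit `o`
(if any) to the output tape, move the head of the input tape `j₀` if `mv` is true. -/
def wr (j₀ : Fin 5) (r : Fin (0 + 5) → Fin (0 + 3)) (w o : Option Bool) (mv : Bool) (j : Fin (0 + 5)) :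
    Fin (0 + 3) × Move :=
  if j.val = 4 then (match w with | some b => (sym 0 b, .right) | none => (r j, .stay))
  else if j.val = 3 then (match o with | some b => (sym 0 b, .right) | none => (r j, .stay))
  else if j.val = j₀.val then (r j, if mv then .right else .stay)
  else (r j, .stay)

theorem wr_none4 (j₀ : Fin 5) (r : Fin (0 + 5) → Fin (0 + 3)) (o : Option Bool) (mv : Bool) :
    wr j₀ r none o mv (4 : Fin 5) = (r (4 : Fin 5), .stay) := rfl

theorem wr_some4 (j₀ : Fin 5) (r : Fin (0 + 5) → Fin (0 + 3)) (b : Bool) (o : Option Bool) (mv : Bool) :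
    wr j₀ r (some b) o mv (4 : Fin 5) = (sym 0 b, .right) := rfl

theorem wr_none3 (j₀ : Fin 5) (r : Fin (0 + 5) → Fin (0 + 3)) (w : Option Bool) (mv : Bool) :
    wr j₀ r w none mv (3 : Fin 5) = (r (3 : Fin 5), .stay) := rfl

theorem wr_some3 (j₀ : Fin 5) (r : Fin (0 + 5) → Fin (0 + 3)) (w : Option Bool) (b : Bool) (mv : Bool) :
    wr j₀ r w (some b) mv (3 : Fin 5) = (sym 0 b, .right) := rfl

theorem wr_inp (j₀ : Fin 5) (hj : j₀.val < 3) (r : Fin (0 + 5) → Fin (0 + 3)) (w o : Option Bool) (mv : Bool) :
    wr j₀ r w o mv j₀ = (r j₀, if mv then .right else .stay) := by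
  have h4 : j₀.val ≠ 4 := by omega
  have h3 : j₀.val ≠ 3 := by omega
  simp only [wr, if_neg h4, if_neg h3, if_true]

/-- Go to the state `st` and move as in `wr`. -/
def act (e : ℕ) (j₀ : Fin 5) (r : Fin (0 + 5) → Fin (0 + 3)) (st : ℕ) (w o : Option Bool) (mv : Bool) :
    Stop ⊕ (Fin (e + 5 + 1) × (Fin (0 + 5) → Fin (0 + 3) × Move)) :=
  .inr (Fin.ofNat (e + 5 + 1) st, wr j₀ r w o mv)

/-- The transition function of the guided machine; `D` is true for the machines which decide a set, and false for those
which print a string. -/
def gδ (e : ℕ) (j₀ : Fin 5) (D : Bool) (st : Fin (e + 5 + 1)) (r : Fin (0 + 5) → Fin (0 + 3)) (ans : Bool) :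
    Stop ⊕ (Fin (e + 5 + 1) × (Fin (0 + 5) → Fin (0 + 3) × Move)) :=
  if st.val < e then act e j₀ r (st.val + 1) (some true) none false
  else if st.val = e then act e j₀ r (e + 1) (some false) none false
  else if st.val = e + 1 then
    (if (toBit (r j₀)).isSome then act e j₀ r (e + 2) (some true) none false
      else act e j₀ r (e + 3) (some false) none false)
  else if st.val = e + 2 then act e j₀ r (e + 1) (toBit (r j₀)) none true
  else if st.val = e + 3 then act e j₀ r (if ans then e + 4 else e + 3) (some ans) none false
  else if st.val = e + 4 then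
    (if D then .inl (.bit ans) else if ans then act e j₀ r (e + 5) (some true) none false else .inl .string)
  else act e j₀ r (e + 4) (some ans) (some ans) false

/-- The guided machine. -/
abbrev guide (e : ℕ) (j₀ : Fin 5) (D : Bool) : OTM where
  k := 0
  s := 0
  q := e + 5
  δ := gδ e j₀ D

section

variable {e : ℕ} {j₀ : Fin 5} {D : Bool} (hj : j₀.val < 3) {B : Str → Bool} {v : Str}

/-- The configuration has the state `st`, the head of the input tape is at the position `i`, the words `w` and `o` are on
the query tape and on the output tape. -/
structure Is (v : Str) (c : Cfg (guide e j₀ D)) (st i : ℕ) (w o : Str) : Prop where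
  state : c.state.val = st
  inp : c.tape j₀ = ofStr 0 v
  pos : c.head j₀ = i
  qword : word (c.tape (4 : Fin 5)) (c.head (4 : Fin 5)) = w
  oword : word (c.tape (3 : Fin 5)) (c.head (3 : Fin 5)) = o

/-- Appending an optional bit. -/
def app (w : Str) (b : Option Bool) : Str := w ++ b.toList

include hj in
theorem step_act {c : Cfg (guide e j₀ D)} {st i : ℕ} {w o : Str} (h : Is v c st i w o) {st' : ℕ} {w' o' : Option Bool}
    {mv : Bool} (hst : st' < e + 6)
    (hδ : gδ e j₀ D c.state (fun j => c.tape j (c.head j)) (B w) =
      act e j₀ (fun j => c.tape j (c.head j)) st' w' o' mv) :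
    ∃ c', step (guide e j₀ D) B c = .inr c' ∧
      Is v c' st' (if mv then i + 1 else i) (app w w') (app o o') := by
  have hq : word (c.tape (queryTape (guide e j₀ D))) (c.head (queryTape (guide e j₀ D))) = w := h.qword
  have hδ' : (guide e j₀ D).δ c.state (fun j => c.tape j (c.head j)) (B w) =
    .inr (Fin.ofNat (e + 5 + 1) st', wr j₀ (fun j => c.tape j (c.head j)) w' o' mv) := hδ
  have hstep : step (guide e j₀ D) B c = .inr
      { state := Fin.ofNat (e + 5 + 1) st'
        tape := fun j => Function.update (c.tape j) (c.head j) (wr j₀ (fun j => c.tape j (c.head j)) w' o' mv j).1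
        head := fun j => (wr j₀ (fun j => c.tape j (c.head j)) w' o' mv j).2.apply (c.head j) } := by
    unfold step
    rw [hq, hδ']
  refine ⟨_, hstep, ?_, ?_, ?_, ?_, ?_⟩
  · show st' % (e + 5 + 1) = st'
    exact Nat.mod_eq_of_lt (by omega)
  · show Function.update (c.tape j₀) (c.head j₀) (wr j₀ (fun j => c.tape j (c.head j)) w' o' mv j₀).1 = _
    rw [wr_inp j₀ hj]
    simp only [Function.update_eq_self]
    exact h.inp
  · show (wr j₀ (fun j => c.tape j (c.head j)) w' o' mv j₀).2.apply (c.head j₀) = _
    rw [wr_inp j₀ hj, h.pos]
    cases mv <;> rfl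
  · show word (Function.update (c.tape (4 : Fin 5)) (c.head (4 : Fin 5))
      (wr j₀ (fun j => c.tape j (c.head j)) w' o' mv (4 : Fin 5)).1)
      ((wr j₀ (fun j => c.tape j (c.head j)) w' o' mv (4 : Fin 5)).2.apply (c.head (4 : Fin 5))) = _
    cases w' with
    | none =>
      rw [wr_none4]
      simp only [Function.update_eq_self, Move.apply, app, Option.toList, List.append_nil]
      exact h.qword
    | some b =>
      rw [wr_some4]
      simp only [Move.apply, app, Option.toList]
      rw [word_write, h.qword]
  · show word (Function.update (c.tape (3 : Fin 5)) (c.head (3 : Fin 5))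
      (wr j₀ (fun j => c.tape j (c.head j)) w' o' mv (3 : Fin 5)).1)
      ((wr j₀ (fun j => c.tape j (c.head j)) w' o' mv (3 : Fin 5)).2.apply (c.head (3 : Fin 5))) = _
    cases o' with
    | none =>
      rw [wr_none3]
      simp only [Function.update_eq_self, Move.apply, app, Option.toList, List.append_nil]
      exact h.oword
    | some b =>
      rw [wr_some3]
      simp only [Move.apply, app, Option.toList]
      rw [word_write, h.oword]

theorem runFrom_step {M : OTM} {c c' : Cfg M} (h : step M B c = .inr c') (n : ℕ) :
    runFrom M B (n + 1) c = runFrom M B n c' := by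
  rw [runFrom, h]

/-- From `c` the machine reaches in `n` steps a configuration with property `Q`. -/
def Reach (M : OTM) (B : Str → Bool) (c : Cfg M) (n : ℕ) (Q : Cfg M → Prop) : Prop :=
  ∃ c', Q c' ∧ ∀ m, runFrom M B (n + m) c = runFrom M B m c'

theorem Reach.step {M : OTM} {c c' : Cfg M} {n : ℕ} {Q : Cfg M → Prop} (h : step M B c = .inr c')
    (h' : Reach M B c' n Q) : Reach M B c (n + 1) Q := by
  obtain ⟨c'', hq, hr⟩ := h'
  refine ⟨c'', hq, fun m => ?_⟩
  rw [show n + 1 + m = (n + m) + 1 by omega, runFrom_step h, hr]

theorem Reach.refl {M : OTM} {c : Cfg M} {Q : Cfg M → Prop} (h : Q c) : Reach M B c 0 Q :=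
  ⟨c, h, fun m => by rw [Nat.zero_add]⟩

theorem Reach.trans {M : OTM} {c : Cfg M} {n m : ℕ} {Q R : Cfg M → Prop} (h : Reach M B c n Q)
    (h' : ∀ c', Q c' → Reach M B c' m R) : Reach M B c (n + m) R := by
  obtain ⟨c', hq, hr⟩ := h
  obtain ⟨c'', hq', hr'⟩ := h' c' hq
  refine ⟨c'', hq', fun l => ?_⟩
  rw [Nat.add_assoc, hr, hr']

include hj

/-- writing the ones of the header -/
theorem reach_ones : ∀ (n : ℕ) (c : Cfg (guide e j₀ D)) (a : ℕ), a + n = e → Is v c a 0 (List.replicate a true) [] →
    Reach (guide e j₀ D) B c n (fun c' => Is v c' e 0 (List.replicate e true) []) := by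
  intro n
  induction n with
  | zero =>
    intro c a ha h
    obtain rfl : a = e := by omega
    exact Reach.refl h
  | succ n ih =>
    intro c a ha h
    have hst := h.state
    obtain ⟨c', hs, h'⟩ := step_act (B := B) hj h (st' := a + 1) (w' := some true) (o' := none) (mv := false) (by omega)
      (by unfold gδ; rw [if_pos (by omega), hst])
    refine Reach.step hs (ih c' (a + 1) (by omega) ?_)
    simpa [app, List.replicate_succ'] using h'

theorem reach_zero {c : Cfg (guide e j₀ D)} (h : Is v c e 0 (List.replicate e true) []) :
    Reach (guide e j₀ D) B c 1 (fun c' => Is v c' (e + 1) 0 (List.replicate e true ++ [false]) []) := by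
  have hst := h.state
  obtain ⟨c', hs, h'⟩ := step_act (B := B) hj h (st' := e + 1) (w' := some false) (o' := none) (mv := false) (by omega)
    (by unfold gδ; rw [if_neg (by omega), if_pos (by omega)])
  exact Reach.step hs (Reach.refl (by simpa [app] using h'))

omit hj in
theorem toBit_ofStr (v : Str) (i : ℕ) : toBit (ofStr 0 v i) = v[i]? := by
  unfold ofStr
  cases h : v[i]? with
  | none => simp [toBit]
  | some b => simp [toBit_sym]

/-- copying the input -/
theorem reach_copy : ∀ (n : ℕ) (c : Cfg (guide e j₀ D)) (i : ℕ) (w : Str), i + n = v.length → Is v c (e + 1) i w [] →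
    Reach (guide e j₀ D) B c (2 * n) (fun c' => Is v c' (e + 1) v.length (w ++ dbl (v.drop i)) []) := by
  intro n
  induction n with
  | zero =>
    intro c i w hi h
    obtain rfl : i = v.length := by omega
    exact Reach.refl (by simpa [dbl] using h)
  | succ n ih =>
    intro c i w hi h
    have hst := h.state
    have hi' : i < v.length := by omega
    have hb : toBit (c.tape j₀ (c.head j₀)) = some v[i] := by
      rw [h.inp, h.pos, toBit_ofStr]
      exact List.getElem?_eq_getElem hi'
    obtain ⟨c₁, hs₁, h₁⟩ := step_act (B := B) hj h (st' := e + 2) (w' := some true) (o' := none) (mv := false)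
      (by omega) (by
        unfold gδ
        rw [if_neg (by omega), if_neg (by omega), if_pos (by omega), hb]
        rfl)
    have hst₁ := h₁.state
    have hb₁ : toBit (c₁.tape j₀ (c₁.head j₀)) = some v[i] := by
      rw [h₁.inp, h₁.pos, toBit_ofStr]
      exact List.getElem?_eq_getElem hi'
    obtain ⟨c₂, hs₂, h₂⟩ := step_act (B := B) hj h₁ (st' := e + 1) (w' := some v[i]) (o' := none) (mv := true)
      (by omega) (by
        unfold gδ
        rw [if_neg (by omega), if_neg (by omega), if_neg (by omega), if_pos (by omega), hb₁])
    rw [show 2 * (n + 1) = (2 * n + 1) + 1 by ring]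
    refine Reach.step hs₁ (Reach.step hs₂ ?_)
    have hd : dbl (v.drop i) = true :: v[i] :: dbl (v.drop (i + 1)) := by
      rw [List.drop_eq_getElem_cons hi', dbl]
    have := ih c₂ (i + 1) (w ++ [true, v[i]]) (by omega) (by simpa [app] using h₂)
    rw [hd]
    simpa using this

theorem reach_end {c : Cfg (guide e j₀ D)} {w : Str} (h : Is v c (e + 1) v.length w []) :
    Reach (guide e j₀ D) B c 1 (fun c' => Is v c' (e + 3) v.length (w ++ [false]) []) := by
  have hst := h.state
  have hb : toBit (c.tape j₀ (c.head j₀)) = none := by
    rw [h.inp, h.pos, toBit_ofStr]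
    simp
  obtain ⟨c', hs, h'⟩ := step_act (B := B) hj h (st' := e + 3) (w' := some false) (o' := none) (mv := false) (by omega)
    (by
      unfold gδ
      rw [if_neg (by omega), if_neg (by omega), if_pos (by omega), hb]
      rfl)
  exact Reach.step hs (Reach.refl (by simpa [app] using h'))

theorem reach_hdr {c : Cfg (guide e j₀ D)} (h : Is v c 0 0 [] []) :
    Reach (guide e j₀ D) B c (hdr e v).length (fun c' => Is v c' (e + 3) v.length (hdr e v) []) := by
  have h1 := reach_ones (B := B) hj e c 0 (by omega) (by simpa using h)
  have h2 := h1.trans fun c' hc' => reach_zero (B := B) hj hc'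
  have h3 := h2.trans fun c' hc' => reach_copy (B := B) hj v.length c' 0 _ (by omega) hc'
  have h4 := h3.trans fun c' hc' => reach_end (B := B) hj hc'
  rw [length_hdr]
  have e1 : e + 1 + 2 * v.length + 1 = e + 1 + (2 * v.length + 1) := by ring
  rw [e1] at h4
  simpa [hdr] using h4

/-- padding -/
theorem reach_pad {w : Str} {L : ℕ} (hL : ∀ l < L, B (w ++ List.replicate l false) = false) :
    ∀ (n : ℕ) (c : Cfg (guide e j₀ D)) (l : ℕ), l + n = L → Is v c (e + 3) v.length (w ++ List.replicate l false) [] →
      Reach (guide e j₀ D) B c n (fun c' => Is v c' (e + 3) v.length (w ++ List.replicate L false) []) := by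
  intro n
  induction n with
  | zero =>
    intro c l hl h
    obtain rfl : l = L := by omega
    exact Reach.refl h
  | succ n ih =>
    intro c l hl h
    have hst := h.state
    have hans : B (w ++ List.replicate l false) = false := hL l (by omega)
    obtain ⟨c', hs, h'⟩ := step_act (B := B) hj h (st' := e + 3) (w' := some false) (o' := none) (mv := false)
      (by omega) (by
        unfold gδ
        rw [if_neg (by omega), if_neg (by omega), if_neg (by omega), if_neg (by omega), if_pos (by omega), hans]
        rfl)
    refine Reach.step hs (ih c' (l + 1) (by omega) ?_)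
    simpa [app, List.replicate_succ'] using h'

theorem reach_flag {w : Str} (hw : B w = true) {c : Cfg (guide e j₀ D)} {i : ℕ} (h : Is v c (e + 3) i w []) :
    Reach (guide e j₀ D) B c 1 (fun c' => Is v c' (e + 4) i (w ++ [true]) []) := by
  have hst := h.state
  obtain ⟨c', hs, h'⟩ := step_act (B := B) hj h (st' := e + 4) (w' := some true) (o' := none) (mv := false)
    (by omega) (by
      unfold gδ
      rw [if_neg (by omega), if_neg (by omega), if_neg (by omega), if_neg (by omega), if_pos (by omega), hw]
      rfl)
  exact Reach.step hs (Reach.refl (by simpa [app] using h'))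

omit hj in
theorem init_is {p z : Str} (hv : v = if j₀.val = 0 then p else if j₀.val = 1 then [] else if j₀.val = 2 then z else []) :
    Is v (init (guide e j₀ D) p [] z) 0 0 [] [] := by
  refine ⟨rfl, ?_, rfl, rfl, rfl⟩
  rw [hv]
  rfl

/-- The machine up to the flag. -/
theorem reach_main {L : ℕ} (h0 : ∀ l < L, B (hdr e v ++ List.replicate l false) = false)
    (h1 : B (hdr e v ++ List.replicate L false) = true) {c : Cfg (guide e j₀ D)} (h : Is v c 0 0 [] []) :
    Reach (guide e j₀ D) B c ((hdr e v).length + L + 1)
      (fun c' => Is v c' (e + 4) v.length (hdr e v ++ List.replicate L false ++ [true]) []) := by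
  refine ((reach_hdr (B := B) hj h).trans fun c' hc' =>
    reach_pad (B := B) hj h0 L c' 0 (by omega) (by simpa using hc')).trans fun c' hc' => ?_
  exact reach_flag (B := B) hj h1 hc'

end

/-- The printing machine. -/
theorem guide_print {e : ℕ} {B : Str → Bool} {v z : Str} {L : ℕ}
    (h0 : ∀ l < L, B (hdr e v ++ List.replicate l false) = false)
    (h1 : B (hdr e v ++ List.replicate L false) = true)
    (h2 : ∀ u, B (hdr e v ++ List.replicate L false ++ true :: u) = (dbl z ++ [false]).getD u.length false) :
    run (guide e 0 false) B v [] [] ((hdr e v).length + L + 1 + (2 * z.length + 1)) = some (some (Sum.inl z)) := by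
  have hj : (0 : Fin 5).val < 3 := by decide
  obtain ⟨c, hc, hr⟩ := reach_main (D := false) hj h0 h1 (init_is (e := e) (D := false) (p := v) (z := []) (by simp))
  unfold run
  rw [hr]
  -- the printing loop
  have key : ∀ (n : ℕ) (c : Cfg (guide e 0 false)) (i : ℕ) , i + n = z.length →
      Is v c (e + 4) v.length (hdr e v ++ List.replicate L false ++ true :: dbl (z.take i)) (z.take i) →
      runFrom (guide e 0 false) B (2 * n + 1) c = some (some (Sum.inl z)) := by
    intro n
    induction n with
    | zero =>
      intro c i hi h
      obtain rfl : i = z.length := by omega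
      have hst := h.state
      have hans : B (hdr e v ++ List.replicate L false ++ true :: dbl (z.take z.length)) = false := by
        rw [h2, List.take_length, List.getD_append_right _ _ _ _ le_rfl]
        simp
      have hδ : gδ e 0 false c.state (fun j => c.tape j (c.head j))
          (B (hdr e v ++ List.replicate L false ++ true :: dbl (z.take z.length))) = .inl .string := by
        unfold gδ
        rw [if_neg (by omega), if_neg (by omega), if_neg (by omega), if_neg (by omega), if_neg (by omega),
          if_pos (by omega), hans]
        rfl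
      have hstep : step (guide e 0 false) B c = .inl (some (.inl z)) := by
        unfold step
        have hq : (word (c.tape (queryTape (guide e 0 false))) (c.head (queryTape (guide e 0 false)))) =
          hdr e v ++ List.replicate L false ++ true :: dbl (z.take z.length) := h.qword
        have ho : (word (c.tape (outTape (guide e 0 false))) (c.head (outTape (guide e 0 false)))) = z := by
          have := h.oword
          rw [List.take_length] at this
          exact this
        have hδ' : (guide e 0 false).δ c.state (fun j => c.tape j (c.head j))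
          (B (hdr e v ++ List.replicate L false ++ true :: dbl (z.take z.length))) = .inl .string := hδ
        rw [hq, hδ']
        simp only
        rw [ho]
      show runFrom (guide e 0 false) B 1 c = _
      rw [runFrom, hstep]
    | succ n ih =>
      intro c i hi h
      have hst := h.state
      have hi' : i < z.length := by omega
      have hz : z = z.take i ++ z[i] :: z.drop (i + 1) := by
        rw [← List.drop_eq_getElem_cons hi', List.take_append_drop]
      have hd : dbl z ++ [false] = dbl (z.take i) ++ true :: z[i] :: (dbl (z.drop (i + 1)) ++ [false]) := by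
        conv_lhs => rw [hz]
        rw [dbl_append]
        simp [dbl]
      have hans : B (hdr e v ++ List.replicate L false ++ true :: dbl (z.take i)) = true := by
        rw [h2, hd, List.getD_append_right _ _ _ _ le_rfl]
        simp
      obtain ⟨c₁, hs₁, h₁⟩ := step_act (B := B) hj h (st' := e + 5) (w' := some true) (o' := none) (mv := false)
        (by omega) (by
          unfold gδ
          rw [if_neg (by omega), if_neg (by omega), if_neg (by omega), if_neg (by omega), if_neg (by omega),
            if_pos (by omega), hans]
          rfl)
      have hst₁ := h₁.state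
      have hans₁ : B (app (hdr e v ++ List.replicate L false ++ true :: dbl (z.take i)) (some true)) = z[i] := by
        have e1 : app (hdr e v ++ List.replicate L false ++ true :: dbl (z.take i)) (some true) =
            hdr e v ++ List.replicate L false ++ true :: (dbl (z.take i) ++ [true]) := by simp [app]
        rw [e1, h2, hd, List.getD_append_right _ _ _ _ (by simp)]
        simp
      obtain ⟨c₂, hs₂, h₂⟩ := step_act (B := B) hj h₁ (st' := e + 4) (w' := some z[i]) (o' := some z[i]) (mv := false)
        (by omega) (by
          unfold gδ
          rw [if_neg (by omega), if_neg (by omega), if_neg (by omega), if_neg (by omega), if_neg (by omega),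
            if_neg (by omega), hans₁])
      rw [show 2 * (n + 1) + 1 = (2 * n + 1) + 1 + 1 by ring, runFrom_step hs₁, runFrom_step hs₂]
      refine ih c₂ (i + 1) (by omega) ?_
      have ht : z.take (i + 1) = z.take i ++ [z[i]] := by
        rw [List.take_add_one, List.getElem?_eq_getElem hi']
        rfl
      rw [ht, dbl_append]
      simpa [app, dbl] using h₂
  have := key z.length c 0 (by omega) (by simpa [dbl] using hc)
  exact this

/-- The deciding machine. -/
theorem guide_decide {e : ℕ} {B : Str → Bool} {v : Str} {b : Bool} {L : ℕ}
    (h0 : ∀ l < L, B (hdr e v ++ List.replicate l false) = false)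
    (h1 : B (hdr e v ++ List.replicate L false) = true)
    (h2 : B (hdr e v ++ List.replicate L false ++ [true]) = b) :
    run (guide e 2 true) B [] [] v ((hdr e v).length + L + 1 + 1) = some (some (Sum.inr (some b))) := by
  have hj : (2 : Fin 5).val < 3 := by decide
  obtain ⟨c, hc, hr⟩ := reach_main (D := true) hj h0 h1 (init_is (e := e) (D := true) (p := []) (z := v) (by
    rw [if_neg (by decide), if_neg (by decide), if_pos (by decide)]))
  unfold run
  rw [hr, runFrom]
  have hst := hc.state
  have hδ : gδ e 2 true c.state (fun j => c.tape j (c.head j))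
      (B (hdr e v ++ List.replicate L false ++ [true])) = .inl (.bit b) := by
    unfold gδ
    rw [if_neg (by omega), if_neg (by omega), if_neg (by omega), if_neg (by omega), if_neg (by omega),
      if_pos (by omega), h2]
    rfl
  have hstep : step (guide e 2 true) B c = .inl (some (.inr (some b))) := by
    unfold step
    have hq : (word (c.tape (queryTape (guide e 2 true))) (c.head (queryTape (guide e 2 true)))) =
      hdr e v ++ List.replicate L false ++ [true] := hc.qword
    have hδ' : (guide e 2 true).δ c.state (fun j => c.tape j (c.head j))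
      (B (hdr e v ++ List.replicate L false ++ [true])) = .inl (.bit b) := hδ
    rw [hq, hδ']
  rw [hstep]

end Pool.Agent.ICO
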