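import Pool.Agent.helper10.ICO.Time

set_option autoImplicit false

/-!
# The main argument
-/

namespace Pool.Agent.ICO

open scoped Classical

/-- `p` is refuted at the stage `L`. -/
def Bad (U NA NT : OTM) (B : Str → Bool) (L : ℕ) (p : Str) : Prop :=
  ∃ (z : Str) (T : ℕ) (b : Bool),
    run NT B [] [] (List.replicate z.length true) L = some (some (Sum.inl (List.replicate T true))) ∧ T ≤ L ∧
    run NA B [] [] z L = some (some (Sum.inr (some b))) ∧
    ¬ ∃ o, run U B p [] z T = some o ∧ ∀ v, o = some v → v = Sum.inr none ∨ v = Sum.inr (some b)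

/-- `z` looks hard at the stage `L`. -/
def Good (U NA NT : OTM) (K : ℕ) (g : ℕ → ℕ) (B : Str → Bool) (m L : ℕ) (z : Str) : Prop :=
  m ≤ z.length ∧ ∃ T : ℕ, L = K * T + K ∧ T ≤ L ∧
    run NT B [] [] (List.replicate z.length true) L = some (some (Sum.inl (List.replicate T true))) ∧
    ∀ p : Str, p.length ≤ g m → Bad U NA NT B L p ∨ ∀ b, run U B p [] z T ≠ some (some (Sum.inr (some b)))

/-- The table `tab`, or one of the programs in `I`, gives the answer `b` to `v`. -/
def Dec (U : OTM) (I : List Str) (tab : List (Str × Bool)) (B : Str → Bool) (v : Str) (L : ℕ) (b : Bool) : Prop :=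
  if ∃ b', (v, b') ∈ tab then (v, b) ∈ tab else ∃ p ∈ I, run U B p [] v L = some (some (Sum.inr (some b)))

/-- The tasks of the oracle. -/
abbrev Task := (OTM × OTM × OTM × ℕ × {g : ℕ → ℕ // Computable g}) ⊕ (OTM × List Str × List (Str × Bool))

/-- The flag. -/
def Flag : Task → (Str → Bool) → Str → ℕ → Prop
  | .inl (U, NA, NT, K, g), B, v, L => ∃ z, Good U NA NT K g.1 B v.length L z
  | .inr (U, I, tab), B, v, L => ∃ b, Dec U I tab B v L b

/-- The script. -/
noncomputable def Script : Task → (Str → Bool) → Str → ℕ → Str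
  | .inl (U, NA, NT, K, g), B, v, L =>
    if h : ∃ z, Good U NA NT K g.1 B v.length L z then dbl h.choose ++ [false] else []
  | .inr (U, I, tab), B, v, L => if h : ∃ b, Dec U I tab B v L b then [h.choose] else []

theorem script_inl (U NA NT : OTM) (K : ℕ) (g : {g : ℕ → ℕ // Computable g}) (B : Str → Bool) (v : Str) (L : ℕ)
    (h : Flag (.inl (U, NA, NT, K, g)) B v L) :
    ∃ z, Good U NA NT K g.1 B v.length L z ∧ Script (.inl (U, NA, NT, K, g)) B v L = dbl z ++ [false] := by
  have h' : ∃ z, Good U NA NT K g.1 B v.length L z := h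
  exact ⟨h'.choose, h'.choose_spec, dif_pos h'⟩

theorem script_inr (U : OTM) (I : List Str) (tab : List (Str × Bool)) (B : Str → Bool) (v : Str) (L : ℕ)
    (h : Flag (.inr (U, I, tab)) B v L) :
    ∃ b, Dec U I tab B v L b ∧ Script (.inr (U, I, tab)) B v L = [b] := by
  have h' : ∃ b, Dec U I tab B v L b := h
  exact ⟨h'.choose, h'.choose_spec, dif_pos h'⟩

theorem bad_tr (U NA NT : OTM) (B : Str → Bool) {L m : ℕ} (h : L ≤ m) (p : Str) :
    Bad U NA NT (tr B m) L p ↔ Bad U NA NT B L p := by
  unfold Bad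
  constructor
  · rintro ⟨z, T, b, h1, h2, h3, h4⟩
    rw [run_tr _ _ _ _ _ h] at h1 h3
    rw [run_tr _ _ _ _ _ (h2.trans h)] at h4
    exact ⟨z, T, b, h1, h2, h3, h4⟩
  · rintro ⟨z, T, b, h1, h2, h3, h4⟩
    refine ⟨z, T, b, ?_, h2, ?_, ?_⟩
    · rw [run_tr _ _ _ _ _ h]; exact h1
    · rw [run_tr _ _ _ _ _ h]; exact h3
    · rw [run_tr _ _ _ _ _ (h2.trans h)]; exact h4

theorem good_tr (U NA NT : OTM) (K : ℕ) (g : ℕ → ℕ) (B : Str → Bool) {L m : ℕ} (h : L ≤ m) (n : ℕ) (z : Str) :
    Good U NA NT K g (tr B m) n L z ↔ Good U NA NT K g B n L z := by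
  unfold Good
  refine and_congr_right fun _ => exists_congr fun T => and_congr_right fun _ => and_congr_right fun hT => ?_
  rw [run_tr _ _ _ _ _ h]
  refine and_congr_right fun _ => forall_congr' fun p => imp_congr_right fun _ => ?_
  rw [bad_tr _ _ _ _ h, run_tr _ _ _ _ _ (hT.trans h)]

theorem dec_tr (U : OTM) (I : List Str) (tab : List (Str × Bool)) (B : Str → Bool) (v : Str) {L m : ℕ} (h : L ≤ m)
    (b : Bool) : Dec U I tab (tr B m) v L b ↔ Dec U I tab B v L b := by
  unfold Dec
  simp only [run_tr _ _ _ _ _ h]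

theorem replicate_inj {n m : ℕ} (h : List.replicate n true = List.replicate m true) : n = m := by
  have := congrArg List.length h
  simpa using this

/-- The oracle has the right answers. -/
def Answers (f : Task → ℕ) (B : Str → Bool) : Prop := ∀ (a : Task) (v : Str) (L : ℕ),
  (B (hdr (f a) v ++ List.replicate L false) = true ↔ Flag a (tr B ((hdr (f a) v).length + L)) v L) ∧
  ∀ u : Str, B (hdr (f a) v ++ List.replicate L false ++ true :: u) =
    (Script a (tr B ((hdr (f a) v).length + L)) v L).getD u.length false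

section

variable {f : Task → ℕ} {B : Str → Bool} (hB : Answers f B)

/-- The first flag. -/
theorem exists_first {w : Str} {L : ℕ} (h : B (w ++ List.replicate L false) = true) :
    ∃ L₀ ≤ L, B (w ++ List.replicate L₀ false) = true ∧ ∀ l < L₀, B (w ++ List.replicate l false) = false := by
  classical
  have hex : ∃ L, B (w ++ List.replicate L false) = true := ⟨L, h⟩
  refine ⟨Nat.find hex, Nat.find_min' hex h, Nat.find_spec hex, fun l hl => ?_⟩
  have := Nat.find_min hex hl
  simpa using this

include hB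

theorem dtime_of_cover (U : OTM) (t : ℕ → ℕ) (K' : ℕ) (ht : ∀ n, n ≤ K' * t n + K') (A : Set Str) (k : ℕ)
    (hfin : {z | ∀ p : Str, p.length ≤ k → Consistent U B t A p →
      ∀ b, run U B p [] z (t z.length) ≠ some (some (Sum.inr (some b)))}.Finite) : DTime B t A := by
  have hI : {p : Str | p.length ≤ k ∧ Consistent U B t A p}.Finite :=
    (List.finite_length_le Bool k).subset fun p hp => hp.1
  set I : List Str := hI.toFinset.toList with hIdef
  set tab : List (Str × Bool) := hfin.toFinset.toList.map (fun z => (z, chi A z)) with htab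
  have memI : ∀ p, p ∈ I ↔ p.length ≤ k ∧ Consistent U B t A p := by
    intro p
    rw [hIdef, Finset.mem_toList, Set.Finite.mem_toFinset]
    rfl
  have memT : ∀ z b, (z, b) ∈ tab → b = chi A z := by
    intro z b h
    rw [htab, List.mem_map] at h
    obtain ⟨z', _, hz⟩ := h
    have h1 := congrArg Prod.fst hz
    have h2 := congrArg Prod.snd hz
    simp only at h1 h2
    rw [← h1, h2]
  set a : Task := Sum.inr (U, I, tab) with ha
  refine ⟨guide (f a) 2 true, f a + 2 * K' + 4, fun z => ?_⟩
  -- some flag in time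
  obtain ⟨L, hL, hflag⟩ : ∃ L ≤ t z.length, B (hdr (f a) z ++ List.replicate L false) = true := by
    by_cases hz : ∃ b', (z, b') ∈ tab
    · refine ⟨0, Nat.zero_le _, ?_⟩
      rw [(hB a z 0).1]
      obtain ⟨b', hb'⟩ := hz
      exact ⟨b', by unfold Dec; rw [if_pos ⟨b', hb'⟩]; exact hb'⟩
    · refine ⟨t z.length, le_rfl, ?_⟩
      rw [(hB a z _).1]
      have hz' : z ∉ {z | ∀ p : Str, p.length ≤ k → Consistent U B t A p →
          ∀ b, run U B p [] z (t z.length) ≠ some (some (Sum.inr (some b)))} := by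
        intro hmem
        refine hz ⟨chi A z, ?_⟩
        rw [htab, List.mem_map]
        exact ⟨z, by rw [Finset.mem_toList, Set.Finite.mem_toFinset]; exact hmem, rfl⟩
      rw [Set.mem_ofPred_eq] at hz'
      push Not at hz'
      obtain ⟨p, hp1, hp2, b, hb⟩ := hz'
      refine ⟨b, ?_⟩
      rw [dec_tr _ _ _ _ _ (by omega)]
      unfold Dec
      rw [if_neg hz]
      exact ⟨p, (memI p).mpr ⟨hp1, hp2⟩, hb⟩
  obtain ⟨L₀, hL₀, h1, h0⟩ := exists_first hflag
  have hP := ((hB a z L₀).1).mp h1
  obtain ⟨b₀, hD, hscript⟩ : ∃ b₀, Dec U I tab (tr B ((hdr (f a) z).length + L₀)) z L₀ b₀ ∧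
    Script a (tr B ((hdr (f a) z).length + L₀)) z L₀ = [b₀] := script_inr U I tab _ z L₀ hP
  have hb : b₀ = chi A z := by
    rw [dec_tr _ _ _ _ _ (by omega)] at hD
    unfold Dec at hD
    by_cases hz : ∃ b', (z, b') ∈ tab
    · rw [if_pos hz] at hD
      exact memT _ _ hD
    · rw [if_neg hz] at hD
      obtain ⟨p, hp, hrun⟩ := hD
      obtain ⟨o, ho, hv⟩ := ((memI p).mp hp).2 z
      have := run_unique _ _ _ _ _ hrun ho
      rcases hv _ this.symm with h | h
      · simp at h
      · simpa using h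
  have h2 : B (hdr (f a) z ++ List.replicate L₀ false ++ [true]) = chi A z := by
    rw [(hB a z L₀).2 [], hscript, hb]
    rfl
  have := guide_decide h0 h1 h2
  refine run_mono _ _ _ _ _ ?_ this
  have h3 := ht z.length
  rw [length_hdr]
  have h4 : (f a + 2 * K' + 4) * t z.length = f a * t z.length + 2 * (K' * t z.length) + 4 * t z.length := by ring
  have h5 : 0 ≤ f a * t z.length := Nat.zero_le _
  rw [h4]
  omega

theorem exists_hard (U : OTM) (t : ℕ → ℕ) (K' : ℕ) (ht : ∀ n, n ≤ K' * t n + K') (hcon : Constructible B t) (A : Set Str)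
    (hA : Recursive B A) (hnot : ¬ DTime B t A) (g : ℕ → ℕ) (hg : Computable g) :
    ∃ (M : OTM) (C : ℕ), ∀ m : ℕ, ∃ z : Str, m ≤ z.length ∧
      (∀ p : Str, p.length ≤ g m → Consistent U B t A p →
        ∀ b, run U B p [] z (t z.length) ≠ some (some (Sum.inr (some b)))) ∧
      run M B (List.replicate m true) [] [] (C * t z.length + C) = some (some (Sum.inl z)) := by
  obtain ⟨NT, K₀, hNT₀⟩ := hcon
  obtain ⟨NA, hNA⟩ := hA
  set K := K₀ + K' + 1 with hK
  have hNT : ∀ n, run NT B [] [] (List.replicate n true) (K * t n + K) =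
      some (some (Sum.inl (List.replicate (t n) true))) := by
    intro n
    refine run_mono _ _ _ _ _ ?_ (hNT₀ n)
    have : K₀ * t n ≤ K * t n := Nat.mul_le_mul_right _ (by omega)
    omega
  have hTle : ∀ T, T ≤ K * T + K := fun T => by nlinarith [Nat.zero_le ((K₀ + K') * T)]
  have ht' : ∀ n, n ≤ K * t n + K := fun n => by
    have h1 := ht n
    have h2 : K' * t n ≤ K * t n := Nat.mul_le_mul_right _ (by omega)
    omega
  have hTval : ∀ (n T L : ℕ), run NT B [] [] (List.replicate n true) L =
      some (some (Sum.inl (List.replicate T true))) → T = t n := by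
    intro n T L h
    have := run_unique _ _ _ _ _ h (hNT n)
    simp only [Option.some.injEq, Sum.inl.injEq] at this
    exact replicate_inj this
  have hAval : ∀ (z : Str) (b : Bool) (L : ℕ), run NA B [] [] z L = some (some (Sum.inr (some b))) →
      b = chi A z := by
    intro z b L h
    obtain ⟨n, hn⟩ := hNA z
    have := run_unique _ _ _ _ _ h hn
    simpa using this
  set a : Task := Sum.inl (U, NA, NT, K, ⟨g, hg⟩) with ha
  refine ⟨guide (f a) 0 false, f a + 5 * K + 4, fun m => ?_⟩
  set v : Str := List.replicate m true with hv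
  have hvl : v.length = m := by simp [hv]
  -- all inconsistent programs are refuted
  obtain ⟨S, hS⟩ : ∃ S, ∀ L ≥ S, ∀ p ∈ {p : Str | p.length ≤ g m},
      ¬ Consistent U B t A p → Bad U NA NT B L p := by
    have h1 : ∀ᶠ L in Filter.atTop, ∀ p ∈ {p : Str | p.length ≤ g m},
        ¬ Consistent U B t A p → Bad U NA NT B L p := by
      rw [Filter.eventually_all_finite (List.finite_length_le Bool (g m))]
      intro p _
      by_cases hc : Consistent U B t A p
      · exact Filter.Eventually.of_forall fun _ h => absurd hc h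
      · have hc' := hc
        unfold Consistent at hc'
        push Not at hc'
        obtain ⟨z, hz⟩ := hc'
        obtain ⟨n, hn⟩ := hNA z
        filter_upwards [Filter.eventually_ge_atTop (K * t z.length + K + n)] with L hL _
        refine ⟨z, t z.length, chi A z, ?_, ?_, ?_, ?_⟩
        · exact run_mono _ _ _ _ _ (by omega) (hNT z.length)
        · have := hTle (t z.length)
          omega
        · exact run_mono _ _ _ _ _ (by omega) hn
        · rintro ⟨o, ho, hov⟩
          obtain ⟨w, hw1, hw2⟩ := hz o ho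
          rcases hov w hw1 with h | h
          · exact hw2.1 h
          · exact hw2.2 h
    exact Filter.eventually_atTop.mp h1
  -- a hard instance
  have hinf : {z | ∀ p : Str, p.length ≤ g m → Consistent U B t A p →
      ∀ b, run U B p [] z (t z.length) ≠ some (some (Sum.inr (some b)))}.Infinite := by
    intro hfin
    exact hnot (dtime_of_cover hB U t K' ht A (g m) hfin)
  obtain ⟨z, hz, hzl⟩ := hinf.exists_notMem_finite (List.finite_length_le Bool (S + m))
  have hzl' : S + m < z.length := by simpa using hzl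
  have hgood : Good U NA NT K g B m (K * t z.length + K) z := by
    refine ⟨by omega, t z.length, rfl, hTle _, hNT _, fun p hp => ?_⟩
    by_cases hc : Consistent U B t A p
    · exact Or.inr (hz p hp hc)
    · refine Or.inl (hS _ ?_ p hp hc)
      have h2 := ht' z.length
      show S ≤ _
      omega
  have hflag : B (hdr (f a) v ++ List.replicate (K * t z.length + K) false) = true := by
    rw [(hB a v _).1]
    refine ⟨z, ?_⟩
    rw [good_tr _ _ _ _ _ _ (by omega), hvl]
    exact hgood
  obtain ⟨L₀, hL₀, h1, h0⟩ := exists_first hflag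
  have hP := ((hB a v L₀).1).mp h1
  obtain ⟨z₀, hG, hscript⟩ : ∃ z₀, Good U NA NT K g (tr B ((hdr (f a) v).length + L₀)) v.length L₀ z₀ ∧
      Script a (tr B ((hdr (f a) v).length + L₀)) v L₀ = dbl z₀ ++ [false] :=
    script_inl U NA NT K ⟨g, hg⟩ _ v L₀ hP
  rw [good_tr _ _ _ _ _ _ (by omega), hvl] at hG
  obtain ⟨hG1, T, hG2, hG3, hG4, hG5⟩ := hG
  obtain rfl := hTval _ _ _ hG4
  refine ⟨z₀, hG1, ?_, ?_⟩
  · intro p hp hc
    refine (hG5 p hp).resolve_left ?_
    rintro ⟨z', T', b', e1, e2, e3, e4⟩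
    obtain rfl := hTval _ _ _ e1
    obtain rfl := hAval _ _ _ e3
    exact e4 (hc z')
  · have h2 : ∀ u, B (hdr (f a) v ++ List.replicate L₀ false ++ true :: u) =
        (dbl z₀ ++ [false]).getD u.length false := by
      intro u
      rw [(hB a v L₀).2 u, hscript]
    have := guide_print h0 h1 h2
    refine run_mono _ _ _ _ _ ?_ this
    have h3 := ht' z₀.length
    rw [length_hdr, hvl]
    have h4 : (f a + 5 * K + 4) * t z₀.length = f a * t z₀.length + 5 * (K * t z₀.length) + 4 * t z₀.length := by ring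
    have h5 : 0 ≤ f a * t z₀.length := Nat.zero_le _
    rw [h4]
    omega

end

/-- There is an oracle relative to which Q1 has a positive answer. -/
theorem main : ∃ B : Str → Bool, ∀ U : OTM, Optimal B U → ∀ t : ℕ → ℕ, (∃ K, ∀ n, n ≤ K * t n + K) →
    Constructible B t →
    ∀ A : Set Str, Recursive B A → ¬ DTime B t A →
      (∃ (c : ℕ) (t' : ℕ → ℕ), IsO t' t ∧ {x | Cx U B t' x ≤ ic U B t A x + c}.Infinite) ∧
      ∀ g : ℕ → ℕ, Computable g → ∃ (c : ℕ) (t' : ℕ → ℕ), IsO t' t ∧
        {x | ∃ m : ℕ, Cx U B t' x ≤ m + c ∧ (g m : ℕ∞) < ic U B t A x}.Infinite := by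
  obtain ⟨f, B, hB⟩ := exists_oracle Flag Script
  have hB' : Answers f B := hB
  refine ⟨B, fun U hU t ⟨K', ht⟩ hcon A hA hnot => ?_⟩
  have key : ∀ g : ℕ → ℕ, Computable g → ∃ (c : ℕ) (t' : ℕ → ℕ), IsO t' t ∧
      {x | ∃ m : ℕ, Cx U B t' x ≤ m + c ∧ (g m : ℕ∞) < ic U B t A x}.Infinite := by
    intro g hg
    obtain ⟨M, C, hM⟩ := exists_hard hB' U t K' ht hcon A hA hnot g hg
    obtain ⟨c, hc⟩ := hU M
    refine ⟨c, slow c (fun n => C * t n + C), isO_slow c C t, fun hfin => ?_⟩
    obtain ⟨N, hN⟩ := (hfin.image List.length).bddAbove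
    obtain ⟨z, hz1, hz2, hz3⟩ := hM (N + 1)
    have hmem : z ∈ {x | ∃ m : ℕ, Cx U B (slow c (fun n => C * t n + C)) x ≤ m + c ∧
        (g m : ℕ∞) < ic U B t A x} := by
      refine ⟨N + 1, ?_, ?_⟩
      · refine (hc A (fun n => C * t n + C) z).2.trans (add_le_add ?_ le_rfl)
        have h := iInf_le (fun p : {p : Str // run M B p [] [] (C * t z.length + C) = some (some (Sum.inl z))} =>
          (p.1.length : ℕ∞)) ⟨List.replicate (N + 1) true, hz3⟩
        refine le_trans h ?_
        simp
      · have h : ((g (N + 1) + 1 : ℕ) : ℕ∞) ≤ ic U B t A z := by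
          refine le_iInf fun p => ?_
          by_contra hlt
          rw [not_le] at hlt
          have hlt' : p.1.length < g (N + 1) + 1 := by exact_mod_cast hlt
          exact hz2 p.1 (by omega) p.2.1 _ p.2.2
        refine lt_of_lt_of_le ?_ h
        exact_mod_cast Nat.lt_succ_self _
    have := hN ⟨z, hmem, rfl⟩
    omega
  refine ⟨?_, key⟩
  obtain ⟨c, t', h1, h2⟩ := key id Computable.id
  refine ⟨c, t', h1, h2.mono ?_⟩
  rintro x ⟨m, h3, h4⟩
  exact h3.trans (add_le_add h4.le le_rfl)

end Pool.Agent.ICO
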