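import Pool.Agent.helper10.ICO.Basic

set_option autoImplicit false

/-!
# Oracles which guide simple machines
-/

namespace Pool.Agent.ICO

open scoped Classical

/-- The self-delimiting form of a string, without the end mark. -/
def dbl : Str → Str
  | [] => []
  | b :: v => true :: b :: dbl v

theorem length_dbl (v : Str) : (dbl v).length = 2 * v.length := by
  induction v with
  | nil => rfl
  | cons b v ih => simp only [dbl, List.length_cons, ih]; omega

theorem dbl_append (v w : Str) : dbl (v ++ w) = dbl v ++ dbl w := by
  induction v with
  | nil => rfl
  | cons b v ih => simp [dbl, ih]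

/-- The header for the task `e` and the input `v`. -/
def hdr (e : ℕ) (v : Str) : Str := List.replicate e true ++ false :: (dbl v ++ [false])

theorem length_hdr (e : ℕ) (v : Str) : (hdr e v).length = e + 1 + (2 * v.length + 1) := by
  simp only [hdr, List.length_append, List.length_replicate, List.length_cons, length_dbl, List.length_nil]
  omega

/-- Counts the leading ones. -/
def pe : Str → ℕ × Str
  | true :: w => ((pe w).1 + 1, (pe w).2)
  | false :: w => (0, w)
  | [] => (0, [])

theorem pe_spec (e : ℕ) (r : Str) : pe (List.replicate e true ++ false :: r) = (e, r) := by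
  induction e with
  | zero => rfl
  | succ e ih => simp only [List.replicate_succ, List.cons_append, pe, ih]

/-- Reads a self-delimiting string. -/
def pv : Str → Str × Str
  | true :: b :: w => (b :: (pv w).1, (pv w).2)
  | false :: w => ([], w)
  | [true] => ([], [])
  | [] => ([], [])

theorem pv_spec (v r : Str) : pv (dbl v ++ false :: r) = (v, r) := by
  induction v with
  | nil => rfl
  | cons b v ih => simp only [dbl, List.cons_append, pv, ih]

/-- Counts the leading zeros. -/
def pl : Str → ℕ × Option Str
  | false :: w => ((pl w).1 + 1, (pl w).2)
  | true :: w => (0, some w)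
  | [] => (0, none)

theorem pl_spec₁ (L : ℕ) : pl (List.replicate L false) = (L, none) := by
  induction L with
  | zero => rfl
  | succ e ih => simp only [List.replicate_succ, pl, ih]

theorem pl_spec₂ (L : ℕ) (u : Str) : pl (List.replicate L false ++ true :: u) = (L, some u) := by
  induction L with
  | zero => rfl
  | succ e ih => simp only [List.replicate_succ, List.cons_append, pl, ih]

section

variable {τ : Type} (P : τ → (Str → Bool) → Str → ℕ → Prop) (Z : τ → (Str → Bool) → Str → ℕ → Str)
  (f : τ → ℕ)

/-- The answer of the guiding oracle to `w`, in terms of an oracle `B` for the strings shorter than `w`. -/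
noncomputable def answer (B : Str → Bool) (w : Str) : Bool :=
  match Function.partialInv f (pe w).1, pl (pv (pe w).2).2 with
  | none, _ => false
  | some a, (L, none) => decide (P a (tr B w.length) (pv (pe w).2).1 L)
  | some a, (L, some u) => (Z a (tr B (w.length - u.length - 1)) (pv (pe w).2).1 L).getD u.length false

/-- The guiding oracle. -/
noncomputable def guideOracle (w : Str) : Bool :=
  answer P Z f (fun x => if _ : x.length < w.length then guideOracle x else false) w
termination_by w.length

theorem guideOracle_eq (w : Str) : guideOracle P Z f w = answer P Z f (tr (guideOracle P Z f) w.length) w := by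
  rw [guideOracle]
  congr 1
  funext x
  unfold tr
  by_cases h : x.length < w.length <;> simp [h]

end

theorem exists_oracle {τ : Type} [Countable τ] (P : τ → (Str → Bool) → Str → ℕ → Prop)
    (Z : τ → (Str → Bool) → Str → ℕ → Str) :
    ∃ (f : τ → ℕ) (B : Str → Bool), ∀ (a : τ) (v : Str) (L : ℕ),
      (B (hdr (f a) v ++ List.replicate L false) = true ↔ P a (tr B ((hdr (f a) v).length + L)) v L) ∧
      ∀ u : Str, B (hdr (f a) v ++ List.replicate L false ++ true :: u) =
        (Z a (tr B ((hdr (f a) v).length + L)) v L).getD u.length false := by
  obtain ⟨f, hf⟩ := exists_injective_nat τ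
  refine ⟨f, guideOracle P Z f, fun a v L => ⟨?_, fun u => ?_⟩⟩
  · have e1 : hdr (f a) v ++ List.replicate L false =
        List.replicate (f a) true ++ false :: (dbl v ++ false :: List.replicate L false) := by
      simp [hdr]
    have hl : (hdr (f a) v ++ List.replicate L false).length = (hdr (f a) v).length + L := by simp
    rw [guideOracle_eq, answer, hl]
    rw [e1, pe_spec]
    simp only
    rw [pv_spec, Function.partialInv_left hf]
    simp only
    rw [pl_spec₁]
    simp only
    rw [tr_tr _ le_rfl, decide_eq_true_iff]
  · have e1 : hdr (f a) v ++ List.replicate L false ++ true :: u =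
        List.replicate (f a) true ++ false :: (dbl v ++ false :: (List.replicate L false ++ true :: u)) := by
      simp [hdr]
    have hl : (hdr (f a) v ++ List.replicate L false ++ true :: u).length =
        (hdr (f a) v).length + L + (u.length + 1) := by simp [Nat.add_assoc]
    rw [guideOracle_eq, answer, hl]
    rw [e1, pe_spec]
    simp only
    rw [pv_spec, Function.partialInv_left hf]
    simp only
    rw [pl_spec₂]
    simp only
    rw [tr_tr _ (by omega)]
    congr 3
    omega

end Pool.Agent.ICO
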