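import Pool.Agent.helper10.ICO.Guide

set_option autoImplicit false

/-!
# Time bounds
-/

namespace Pool.Agent.ICO

theorem mul_log_le (K m : ℕ) :
    ((K * m + K : ℕ) : ℝ) * Real.log ((K * m + K : ℕ) : ℝ) ≤
      ((8 * (K + 1) ^ 2 : ℕ) : ℝ) * m * Real.log m + ((8 * (K + 1) ^ 2 : ℕ) : ℝ) := by
  have hm0 : (0 : ℝ) ≤ m := Nat.cast_nonneg m
  have hK0 : (0 : ℝ) ≤ K := Nat.cast_nonneg K
  have hlm : 0 ≤ Real.log (m : ℝ) := Real.log_natCast_nonneg m
  push_cast
  rcases Nat.eq_zero_or_pos K with rfl | hK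
  · simp
    positivity
  have hK1 : (1 : ℝ) ≤ K := by exact_mod_cast hK
  rcases Nat.lt_or_ge m 2 with hm | hm
  · have hm1 : (m : ℝ) ≤ 1 := by exact_mod_cast Nat.le_of_lt_succ hm
    have hx : (0 : ℝ) < K * m + K := by positivity
    have hx2 : (K : ℝ) * m + K ≤ 2 * K := by nlinarith
    have hl : Real.log ((K : ℝ) * m + K) ≤ 2 * K := (Real.log_le_self hx.le).trans hx2
    have hl0 : 0 ≤ Real.log ((K : ℝ) * m + K) := Real.log_nonneg (by nlinarith)
    have h1 : ((K : ℝ) * m + K) * Real.log ((K : ℝ) * m + K) ≤ (2 * K) * (2 * K) :=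
      mul_le_mul hx2 hl hl0 (by positivity)
    have h2 : 0 ≤ 8 * ((K : ℝ) + 1) ^ 2 * m * Real.log m := by positivity
    nlinarith
  · have hm2 : (2 : ℝ) ≤ m := by exact_mod_cast hm
    have hx : (0 : ℝ) < (m : ℝ) + 1 := by positivity
    have hlog2 : (1 : ℝ) / 2 ≤ Real.log m := by
      have h1 : Real.log 2 ≤ Real.log m := Real.log_le_log (by norm_num) hm2
      have h2 := Real.log_two_gt_d9
      linarith
    have h3 : Real.log ((K : ℝ) * m + K) ≤ (2 * K + 2) * Real.log m := by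
      have e : (K : ℝ) * m + K = K * (m + 1) := by ring
      rw [e, Real.log_mul (by positivity) (by positivity)]
      have h4 : Real.log (K : ℝ) ≤ K := Real.log_le_self hK0
      have h5 : Real.log ((m : ℝ) + 1) ≤ 2 * Real.log m := by
        rw [← Real.log_rpow (by positivity)]
        refine Real.log_le_log hx ?_
        rw [Real.rpow_two]
        nlinarith
      nlinarith
    have h6 : (K : ℝ) * m + K ≤ 2 * K * m := by nlinarith
    have h7 : 0 ≤ (2 * (K : ℝ) + 2) * Real.log m := by positivity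
    have h8 : ((K : ℝ) * m + K) * Real.log ((K : ℝ) * m + K) ≤ (2 * K * m) * ((2 * K + 2) * Real.log m) := by
      refine (mul_le_mul_of_nonneg_left h3 (by positivity)).trans ?_
      exact mul_le_mul_of_nonneg_right h6 h7
    have h9 : (2 * (K : ℝ) * m) * ((2 * K + 2) * Real.log m) ≤ 8 * ((K : ℝ) + 1) ^ 2 * m * Real.log m := by
      have h10 : 0 ≤ (m : ℝ) * Real.log m := by positivity
      have h11 : 2 * (K : ℝ) * (2 * K + 2) ≤ 8 * ((K : ℝ) + 1) ^ 2 := by nlinarith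
      calc (2 * (K : ℝ) * m) * ((2 * K + 2) * Real.log m) = (2 * (K : ℝ) * (2 * K + 2)) * (m * Real.log m) := by ring
        _ ≤ (8 * ((K : ℝ) + 1) ^ 2) * (m * Real.log m) := mul_le_mul_of_nonneg_right h11 h10
        _ = _ := by ring
    have h12 : (0 : ℝ) ≤ 8 * ((K : ℝ) + 1) ^ 2 := by positivity
    linarith

theorem isO_slow (c K : ℕ) (t : ℕ → ℕ) : IsO (slow c (fun n => K * t n + K)) t := by
  refine ⟨c * (8 * (K + 1) ^ 2) + c, fun n => ?_⟩
  have h := mul_log_le K (t n)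
  have hc : (0 : ℝ) ≤ c := Nat.cast_nonneg c
  have hlm : 0 ≤ Real.log (t n : ℝ) := Real.log_natCast_nonneg _
  have hl2 : 0 ≤ Real.log ((K * t n + K : ℕ) : ℝ) := Real.log_natCast_nonneg _
  have h0 : (0 : ℝ) ≤ (c : ℝ) * ((K * t n + K : ℕ) : ℝ) * Real.log ((K * t n + K : ℕ) : ℝ) + c := by positivity
  refine (Nat.floor_le h0).trans ?_
  have h1 : (c : ℝ) * ((K * t n + K : ℕ) : ℝ) * Real.log ((K * t n + K : ℕ) : ℝ) ≤
      c * (((8 * (K + 1) ^ 2 : ℕ) : ℝ) * t n * Real.log (t n) + ((8 * (K + 1) ^ 2 : ℕ) : ℝ)) := by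
    rw [mul_assoc]
    exact mul_le_mul_of_nonneg_left h hc
  have h2 : (0 : ℝ) ≤ (c : ℝ) * (t n * Real.log (t n)) := by positivity
  push_cast at h1 ⊢
  nlinarith

end Pool.Agent.ICO
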